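import Mathlib

namespace Pool.Agent.Results.MP_79490a_al.NoLatticeIdentity

universe u

/-- Terms of type `(2, 0)` over the variables `x₀, x₁, …`: `imp s t` is `s → t`, `zero` is `0`. -/
inductive Tm : Type
  | var : ℕ → Tm
  | zero : Tm
  | imp : Tm → Tm → Tm

/-- Algebras `⟨A; →, 0⟩` of type `(2, 0)`. -/
structure Alg : Type 1 where
  carrier : Type
  imp : carrier → carrier → carrier
  zero : carrier

/-- The value of a term in an algebra. -/
def Tm.eval (A : Alg) (v : ℕ → A.carrier) : Tm → A.carrier
  | .var n => v n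
  | .zero => A.zero
  | .imp s t => A.imp (s.eval A v) (t.eval A v)

/-- The algebra satisfies the identity. -/
def Sat (A : Alg) (e : Tm × Tm) : Prop := ∀ v : ℕ → A.carrier, e.1.eval A v = e.2.eval A v

/-- The class of all algebras satisfying the identities in `E`. -/
def Mod (E : Set (Tm × Tm)) : Set Alg := {A | ∀ e ∈ E, Sat A e}

/-- The identities valid in the class `V`. -/
def Th (V : Set Alg) : Set (Tm × Tm) := {e | ∀ A ∈ V, Sat A e}

/-- Varieties are the equational classes. -/
def IsVariety (V : Set Alg) : Prop := ∃ E, V = Mod E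

/-- `u' = (u → 0)`. -/
def Tm.pr (t : Tm) : Tm := .imp t .zero

/-- The variety of implication zroupoids:
`(x → y) → z ≈ ((z' → x) → (y → z)')'` and `0'' ≈ 0`. -/
def IZ : Set Alg := Mod {
  (.imp (.imp (.var 0) (.var 1)) (.var 2),
    (Tm.imp (.imp (Tm.var 2).pr (.var 0)) (Tm.imp (.var 1) (.var 2)).pr).pr),
  (Tm.zero.pr.pr, .zero) }

theorem mod_mono {E F : Set (Tm × Tm)} (h : E ⊆ F) : Mod F ⊆ Mod E :=
  fun _ hA e he => hA e (h he)

theorem th_mono {V W : Set Alg} (h : V ⊆ W) : Th W ⊆ Th V :=
  fun _ he A hA => he A (h hA)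

theorem subset_mod_th (V : Set Alg) : V ⊆ Mod (Th V) := fun _ hA _ he => he _ hA

theorem subset_th_mod (E : Set (Tm × Tm)) : E ⊆ Th (Mod E) := fun _ he _ hA => hA _ he

theorem IsVariety.eq {V : Set Alg} (h : IsVariety V) : Mod (Th V) = V := by
  obtain ⟨E, rfl⟩ := h
  exact Set.Subset.antisymm (mod_mono (subset_th_mod E)) (subset_mod_th _)

/-- The subvarieties of `IZ`. -/
def SubIZ : Type 1 := {V : Set Alg // IsVariety V ∧ V ⊆ IZ}

theorem isVariety_inter {V W : Set Alg} (hV : IsVariety V) (hW : IsVariety W) :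
    IsVariety (V ∩ W) := by
  obtain ⟨E, rfl⟩ := hV
  obtain ⟨F, rfl⟩ := hW
  refine ⟨E ∪ F, ?_⟩
  ext A
  constructor
  · rintro ⟨h1, h2⟩ e (he | he)
    · exact h1 e he
    · exact h2 e he
  · intro h
    exact ⟨fun e he => h e (Or.inl he), fun e he => h e (Or.inr he)⟩

theorem isVariety_IZ : IsVariety IZ := ⟨_, rfl⟩

/-- The lattice of subvarieties of `IZ` ordered by inclusion: the meet is the intersection, the
join is the variety generated by the union. -/
instance : Lattice SubIZ where
  le V W := V.1 ⊆ W.1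
  le_refl V := Set.Subset.refl _
  le_trans U V W h1 h2 := Set.Subset.trans h1 h2
  le_antisymm V W h1 h2 := Subtype.ext (Set.Subset.antisymm h1 h2)
  inf V W := ⟨V.1 ∩ W.1, isVariety_inter V.2.1 W.2.1, fun _ hA => V.2.2 hA.1⟩
  inf_le_left V W := Set.inter_subset_left
  inf_le_right V W := Set.inter_subset_right
  le_inf U V W h1 h2 := Set.subset_inter h1 h2
  sup V W := ⟨Mod (Th (V.1 ∪ W.1)), ⟨_, rfl⟩, by
    have h : V.1 ∪ W.1 ⊆ IZ := Set.union_subset V.2.2 W.2.2
    exact (mod_mono (th_mono h)).trans isVariety_IZ.eq.subset⟩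
  le_sup_left V W := (Set.subset_union_left).trans (subset_mod_th _)
  le_sup_right V W := (Set.subset_union_right).trans (subset_mod_th _)
  sup_le U V W h1 h2 :=
    (mod_mono (th_mono (Set.union_subset h1 h2))).trans W.2.1.eq.subset

/-- Lattice terms. -/
inductive LTm : Type
  | var : ℕ → LTm
  | sup : LTm → LTm → LTm
  | inf : LTm → LTm → LTm

/-- The value of a lattice term. -/
def LTm.eval {L : Type u} [Lattice L] (v : ℕ → L) : LTm → L
  | .var n => v n
  | .sup p q => p.eval v ⊔ q.eval v
  | .inf p q => p.eval v ⊓ q.eval v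

/-- The dual term. -/
def LTm.dual : LTm → LTm
  | .var n => .var n
  | .sup p q => .inf p.dual q.dual
  | .inf p q => .sup p.dual q.dual

theorem eval_dual {L : Type u} [Lattice L] (v : ℕ → L) (p : LTm) :
    p.dual.eval (fun i => OrderDual.toDual (v i)) = OrderDual.toDual (p.eval v) := by
  induction p with
  | var n => rfl
  | sup p q hp hq => simp only [LTm.dual, LTm.eval, hp, hq]; rfl
  | inf p q hp hq => simp only [LTm.dual, LTm.eval, hp, hq]; rfl

theorem eval_coe {L : Type u} [Lattice L] (v : ℕ → L) (p : LTm) :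
    p.eval (fun i => ((v i : L) : WithBot L)) = ((p.eval v : L) : WithBot L) := by
  induction p with
  | var n => rfl
  | sup p q hp hq => simp only [LTm.eval, hp, hq]; rfl
  | inf p q hp hq => simp only [LTm.eval, hp, hq]; rfl

/-! ### Finite partition lattices satisfy no nontrivial lattice identity -/

/-- Finite sets with an `L`-valued distance. -/
structure Sp (L : Type u) [Lattice L] [OrderBot L] where
  B : Type
  fin : Finite B
  d : B → B → L
  refl : ∀ x, d x x = ⊥
  symm : ∀ x y, d x y = d y x
  tri : ∀ x y z, d x z ≤ d x y ⊔ d y z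

variable {L : Type u} [Lattice L] [OrderBot L]

/-- The equivalence relation `d x y ≤ w`. -/
def Sp.th (S : Sp L) (w : L) : Setoid S.B where
  r x y := S.d x y ≤ w
  iseqv := ⟨fun x => by rw [S.refl]; exact bot_le, fun {x y} h => by rw [S.symm]; exact h,
    fun {x y z} h1 h2 => (S.tri x y z).trans (sup_le h1 h2)⟩

theorem upper (S : Sp L) (e : ℕ → L) (t : LTm) :
    t.eval (fun i => S.th (e i)) ≤ S.th (t.eval e) := by
  induction t with
  | var n => exact le_refl _
  | sup p q hp hq =>
    refine sup_le (hp.trans ?_) (hq.trans ?_)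
    · intro x y h
      exact le_trans h le_sup_left
    · intro x y h
      exact le_trans h le_sup_right
  | inf p q hp hq =>
    intro x y h
    exact le_inf (hp h.1) (hq h.2)

theorem mono_eval {B B' : Type} (f : B → B') (θ : ℕ → Setoid B) (θ' : ℕ → Setoid B')
    (h : ∀ i, θ i ≤ Setoid.comap f (θ' i)) (t : LTm) :
    t.eval θ ≤ Setoid.comap f (t.eval θ') := by
  induction t with
  | var n => exact h n
  | sup p q hp hq =>
    refine sup_le (hp.trans ?_) (hq.trans ?_)
    · intro x y hxy
      exact (le_sup_left : p.eval θ' ≤ p.eval θ' ⊔ q.eval θ') hxy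
    · intro x y hxy
      exact (le_sup_right : q.eval θ' ≤ p.eval θ' ⊔ q.eval θ') hxy
  | inf p q hp hq =>
    intro x y hxy
    exact ⟨hp hxy.1, hq hxy.2⟩

/-- One point extensions. -/
def Sp.ext (S : Sp L) (f : S.B → L) (h1 : ∀ x y, f x ≤ S.d x y ⊔ f y)
    (h2 : ∀ x y, S.d x y ≤ f x ⊔ f y) : Sp L where
  B := Option S.B
  fin := by have := S.fin; infer_instance
  d x y := match x, y with
    | none, none => ⊥
    | none, some y => f y
    | some x, none => f x
    | some x, some y => S.d x y
  refl x := by cases x <;> simp [S.refl]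
  symm x y := by cases x <;> cases y <;> simp [S.symm]
  tri x y z := by
    rcases x with _ | x <;> rcases y with _ | y <;> rcases z with _ | z
    · simp
    · simp
    · simp
    · simp only
      have := h1 z y
      rw [S.symm z y, sup_comm] at this
      exact this
    · simp
    · simp only
      exact h2 x z
    · simp only
      exact h1 x y
    · simp only
      exact S.tri x y z

/-- Isometric maps. -/
def Iso (S S' : Sp L) (f : S.B → S'.B) : Prop := ∀ x y, S'.d (f x) (f y) = S.d x y

theorem Iso.mono {S S' : Sp L} {f : S.B → S'.B} (h : Iso S S' f) (e : ℕ → L) (t : LTm)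
    {x y : S.B} (hxy : t.eval (fun i => S.th (e i)) x y) :
    t.eval (fun i => S'.th (e i)) (f x) (f y) :=
  mono_eval f _ _ (fun i x y hx => by
    show S'.d (f x) (f y) ≤ e i
    rw [h x y]; exact hx) t hxy

theorem ext3 (S : Sp L) (a b : S.B) (α β : L) (h : S.d a b ≤ α ⊔ β) :
    ∃ (S' : Sp L) (f : S.B → S'.B), Iso S S' f ∧ ∃ z1 z2 z3 : S'.B,
      S'.d (f a) z1 ≤ α ∧ S'.d z1 z2 ≤ β ∧ S'.d z2 z3 ≤ α ∧ S'.d z3 (f b) ≤ β := by
  classical
  -- first point
  let S1 : Sp L := S.ext (fun x => S.d x a ⊔ α)
    (fun x y => by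
      refine sup_le ((S.tri x y a).trans ?_) ?_
      · exact sup_le_sup le_rfl le_sup_left
      · exact le_sup_right.trans le_sup_right)
    (fun x y => by
      refine (S.tri x a y).trans ?_
      rw [S.symm a y]
      exact sup_le_sup le_sup_left le_sup_left)
  let S2 : Sp L := S1.ext (fun x => S1.d x (some b) ⊔ β)
    (fun x y => by
      refine sup_le ((S1.tri x y (some b)).trans ?_) ?_
      · exact sup_le_sup le_rfl le_sup_left
      · exact le_sup_right.trans le_sup_right)
    (fun x y => by
      refine (S1.tri x (some b) y).trans ?_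
      rw [S1.symm (some b) y]
      exact sup_le_sup le_sup_left le_sup_left)
  -- points of `S2`: `none` is `z3`, `some none` is `z1`, `some (some x)` is `x`
  let f2 : S2.B → L := fun x => match x with
    | none => α
    | some none => β
    | some (some x) => S.d x a ⊔ (α ⊔ β)
  have hba : S.d b a ≤ α ⊔ β := by rw [S.symm]; exact h
  let S3 : Sp L := S2.ext f2
    (fun x y => by
      rcases x with _ | _ | x <;> rcases y with _ | _ | y
      · exact le_sup_right
      · show α ≤ ((S.d b a ⊔ α) ⊔ β) ⊔ β
        exact le_sup_right.trans (le_sup_left.trans le_sup_left)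
      · show α ≤ _ ⊔ (S.d y a ⊔ (α ⊔ β))
        exact (le_sup_left.trans le_sup_right).trans le_sup_right
      · show β ≤ ((S.d b a ⊔ α) ⊔ β) ⊔ α
        exact le_sup_right.trans le_sup_left
      · exact le_sup_right
      · show β ≤ _ ⊔ (S.d y a ⊔ (α ⊔ β))
        exact (le_sup_right.trans le_sup_right).trans le_sup_right
      · show S.d x a ⊔ (α ⊔ β) ≤ (S.d x b ⊔ β) ⊔ α
        refine sup_le ((S.tri x b a).trans (sup_le ?_ (hba.trans ?_))) ?_
        · exact le_sup_left.trans le_sup_left
        · exact sup_le le_sup_right (le_sup_right.trans le_sup_left)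
        · exact sup_le le_sup_right (le_sup_right.trans le_sup_left)
      · show S.d x a ⊔ (α ⊔ β) ≤ (S.d x a ⊔ α) ⊔ β
        rw [sup_assoc]
      · show S.d x a ⊔ (α ⊔ β) ≤ S.d x y ⊔ (S.d y a ⊔ (α ⊔ β))
        refine sup_le ((S.tri x y a).trans ?_) (le_sup_right.trans le_sup_right)
        exact sup_le_sup le_rfl le_sup_left)
    (fun x y => by
      rcases x with _ | _ | x <;> rcases y with _ | _ | y
      · show (⊥ : L) ≤ _
        exact bot_le
      · show (S.d b a ⊔ α) ⊔ β ≤ α ⊔ β
        exact sup_le (sup_le hba le_sup_left) le_sup_right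
      · show S.d y b ⊔ β ≤ α ⊔ (S.d y a ⊔ (α ⊔ β))
        refine sup_le ((S.tri y a b).trans (sup_le ?_ (h.trans ?_))) ?_
        · exact le_sup_left.trans le_sup_right
        · exact le_sup_right.trans le_sup_right
        · exact (le_sup_right.trans le_sup_right).trans le_sup_right
      · show (S.d b a ⊔ α) ⊔ β ≤ β ⊔ α
        rw [sup_comm β α]
        exact sup_le (sup_le hba le_sup_left) le_sup_right
      · show (⊥ : L) ≤ _
        exact bot_le
      · show S.d y a ⊔ α ≤ β ⊔ (S.d y a ⊔ (α ⊔ β))
        refine sup_le (le_sup_left.trans le_sup_right) ?_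
        exact (le_sup_left.trans le_sup_right).trans le_sup_right
      · show S.d x b ⊔ β ≤ (S.d x a ⊔ (α ⊔ β)) ⊔ α
        refine sup_le ((S.tri x a b).trans (sup_le ?_ (h.trans ?_))) ?_
        · exact le_sup_left.trans le_sup_left
        · exact le_sup_right.trans le_sup_left
        · exact (le_sup_right.trans le_sup_right).trans le_sup_left
      · show S.d x a ⊔ α ≤ (S.d x a ⊔ (α ⊔ β)) ⊔ β
        refine sup_le (le_sup_left.trans le_sup_left) ?_
        exact (le_sup_left.trans le_sup_right).trans le_sup_left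
      · show S.d x y ≤ (S.d x a ⊔ (α ⊔ β)) ⊔ (S.d y a ⊔ (α ⊔ β))
        refine (S.tri x a y).trans ?_
        rw [S.symm a y]
        exact sup_le_sup le_sup_left le_sup_left)
  refine ⟨S3, fun x => some (some (some x)), fun x y => rfl, some (some none), none, some none,
    ?_, ?_, ?_, ?_⟩
  · show S.d a a ⊔ α ≤ α
    rw [S.refl]; simp
  · show β ≤ β
    exact le_rfl
  · show α ≤ α
    exact le_rfl
  · show S.d b b ⊔ β ≤ β
    rw [S.refl]; simp

theorem lower (e : ℕ → L) (t : LTm) : ∀ (S : Sp L) (a b : S.B), S.d a b ≤ t.eval e →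
    ∃ (S' : Sp L) (f : S.B → S'.B), Iso S S' f ∧
      t.eval (fun i => S'.th (e i)) (f a) (f b) := by
  induction t with
  | var n =>
    intro S a b h
    exact ⟨S, id, fun _ _ => rfl, h⟩
  | inf p q hp hq =>
    intro S a b h
    obtain ⟨S1, f1, i1, r1⟩ := hp S a b (h.trans inf_le_left)
    obtain ⟨S2, f2, i2, r2⟩ := hq S1 (f1 a) (f1 b) (by rw [i1]; exact h.trans inf_le_right)
    exact ⟨S2, f2 ∘ f1, fun x y => by rw [Function.comp, Function.comp, i2, i1],
      i2.mono e p r1, r2⟩
  | sup p q hp hq =>
    intro S a b h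
    obtain ⟨S0, f0, i0, z1, z2, z3, d1, d2, d3, d4⟩ := ext3 S a b _ _ h
    obtain ⟨S1, f1, i1, r1⟩ := hp S0 (f0 a) z1 d1
    obtain ⟨S2, f2, i2, r2⟩ := hq S1 (f1 z1) (f1 z2) (by rw [i1]; exact d2)
    obtain ⟨S3, f3, i3, r3⟩ := hp S2 (f2 (f1 z2)) (f2 (f1 z3)) (by rw [i2, i1]; exact d3)
    obtain ⟨S4, f4, i4, r4⟩ := hq S3 (f3 (f2 (f1 z3))) (f3 (f2 (f1 (f0 b))))
      (by rw [i3, i2, i1]; exact d4)
    refine ⟨S4, fun x => f4 (f3 (f2 (f1 (f0 x)))), fun x y => by rw [i4, i3, i2, i1, i0], ?_⟩
    have hL : p.eval (fun i => S4.th (e i)) ≤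
      p.eval (fun i => S4.th (e i)) ⊔ q.eval (fun i => S4.th (e i)) := le_sup_left
    have hR : q.eval (fun i => S4.th (e i)) ≤
      p.eval (fun i => S4.th (e i)) ⊔ q.eval (fun i => S4.th (e i)) := le_sup_right
    have e1 := hL (i4.mono e p (i3.mono e p (i2.mono e p r1)))
    have e2 := hR (i4.mono e q (i3.mono e q r2))
    have e3 := hL (i4.mono e p r3)
    have e4 := hR r4
    exact Setoid.trans' _ (Setoid.trans' _ (Setoid.trans' _ e1 e2) e3) e4

/-- A lattice identity failing in some lattice fails in a finite partition lattice. -/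
theorem exists_setoid {L : Type u} [Lattice L] (v : ℕ → L) (p q : LTm)
    (h : p.eval v ≠ q.eval v) :
    ∃ (B : Type) (_ : Finite B) (θ : ℕ → Setoid B), p.eval θ ≠ q.eval θ := by
  classical
  wlog hle : ¬ p.eval v ≤ q.eval v generalizing p q
  · have h' : ¬ q.eval v ≤ p.eval v := fun hh => h (le_antisymm (not_not.1 hle) hh)
    obtain ⟨B, hB, θ, hθ⟩ := this q p h.symm h'
    exact ⟨B, hB, θ, hθ.symm⟩
  set e : ℕ → WithBot L := fun i => ((v i : L) : WithBot L) with he
  let S : Sp (WithBot L) :=
    { B := Bool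
      fin := inferInstance
      d := fun x y => if x = y then ⊥ else p.eval e
      refl := fun x => by simp
      symm := fun x y => by simp [eq_comm]
      tri := fun x y z => by
        by_cases h1 : x = y
        · subst h1; simp
        · by_cases h2 : y = z
          · subst h2; simp
          · simp only [if_neg h1, if_neg h2, sup_idem]
            split_ifs
            · exact bot_le
            · exact le_rfl }
  obtain ⟨S', f, hf, hr⟩ := lower e p S false true (by simp [S])
  refine ⟨S'.B, S'.fin, fun i => S'.th (e i), fun heq => hle ?_⟩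
  rw [heq] at hr
  have h1 : S'.d (f false) (f true) ≤ q.eval e := upper S' e q hr
  rw [hf] at h1
  have h2 : p.eval e ≤ q.eval e := by simpa [S] using h1
  rw [he, eval_coe, eval_coe] at h2
  exact WithBot.coe_le_coe.1 h2

/-! ### The varieties attached to equivalence relations -/

/-- Normal forms: `none` is `0`, `some ([a₁, …, aₖ], b)` is `a₁ → (a₂ → ⋯ (aₖ → b))`. -/
abbrev W : Type := Option (List ℕ × ℕ)

/-- The operation on normal forms; words with more than `M + 1` letters are `0`. -/
def fimp (M : ℕ) : W → W → W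
  | some ([], a), some (l, b) => if l.length < M then some (a :: l, b) else none
  | _, _ => none

/-- The algebra of normal forms. -/
abbrev F (M : ℕ) : Alg := ⟨W, fimp M, none⟩

/-- The variables as elements of `F M`. -/
def letters (n : ℕ) : W := some ([], n)

/-- The normal form of a term. -/
def nf (M : ℕ) (t : Tm) : W := t.eval (F M) letters

theorem nf_imp (M : ℕ) (s t : Tm) : nf M (.imp s t) = fimp M (nf M s) (nf M t) := rfl

theorem nf_zero (M : ℕ) : nf M .zero = none := rfl

/-- The term of a word. -/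
def wordTm (w : List ℕ × ℕ) : Tm := w.1.foldr (fun a t => .imp (.var a) t) (.var w.2)

/-- The value of a normal form. -/
def evalO (A : Alg) (v : ℕ → A.carrier) : W → A.carrier
  | none => A.zero
  | some w => w.1.foldr (fun a z => A.imp (v a) z) (v w.2)

theorem eval_wordTm (A : Alg) (v : ℕ → A.carrier) (w : List ℕ × ℕ) :
    (wordTm w).eval A v = evalO A v (some w) := by
  obtain ⟨l, b⟩ := w
  induction l with
  | nil => rfl
  | cons a l ih =>
    show A.imp (v a) ((wordTm (l, b)).eval A v) = A.imp (v a) (evalO A v (some (l, b)))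
    rw [ih]

structure Good (M : ℕ) (A : Alg) : Prop where
  h1 : ∀ x, A.imp x A.zero = A.zero
  h2 : ∀ x y z, A.imp (A.imp x y) z = A.zero
  h3 : ∀ (v : ℕ → A.carrier) (w : List ℕ × ℕ), M < w.1.length → evalO A v (some w) = A.zero

theorem Good.h0 {M : ℕ} {A : Alg} (h : Good M A) (z : A.carrier) :
    A.imp A.zero z = A.zero := by
  have := h.h2 A.zero A.zero z
  rwa [h.h1] at this

theorem sound {M : ℕ} {A : Alg} (hA : Good M A) (v : ℕ → A.carrier) (t : Tm) :
    t.eval A v = evalO A v (nf M t) := by
  induction t with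
  | var n => rfl
  | zero => rfl
  | imp s t hs ht =>
    show A.imp (s.eval A v) (t.eval A v) = evalO A v (fimp M (nf M s) (nf M t))
    rw [hs, ht]
    rcases nf M s with _ | ⟨_ | ⟨a, l⟩, b⟩
    · show A.imp A.zero _ = A.zero
      exact hA.h0 _
    · rcases nf M t with _ | ⟨l, c⟩
      · show A.imp _ A.zero = A.zero
        exact hA.h1 _
      · show A.imp (v b) (evalO A v (some (l, c))) =
          evalO A v (if l.length < M then some (b :: l, c) else none)
        split_ifs with hl
        · rfl
        · have := hA.h3 v (b :: l, c) (by simp only [List.length_cons]; omega)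
          exact this
    · show A.imp (A.imp _ _) _ = A.zero
      exact hA.h2 _ _ _

theorem fimp_none (M : ℕ) (x : W) : fimp M x none = none := by
  rcases x with _ | ⟨_ | ⟨a, l⟩, b⟩ <;> rfl

theorem fimp_fimp (M : ℕ) (x y z : W) : fimp M (fimp M x y) z = none := by
  rcases x with _ | ⟨_ | ⟨a, l⟩, b⟩
  · rfl
  · rcases y with _ | ⟨l, c⟩
    · rfl
    · show fimp M (if l.length < M then some (b :: l, c) else none) z = none
      split_ifs <;> rfl
  · rfl

theorem evalO_len (M : ℕ) (v : ℕ → W) (b : ℕ) (l : List ℕ) :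
    ∀ w : List ℕ × ℕ, evalO (F M) v (some (l, b)) = some w →
      l.length ≤ w.1.length ∧ (l ≠ [] → w.1.length ≤ M) := by
  induction l with
  | nil => intro w _; simp
  | cons a l ih =>
    intro w hw
    have hw' : fimp M (v a) (evalO (F M) v (some (l, b))) = some w := hw
    rcases hz : evalO (F M) v (some (l, b)) with _ | ⟨l', c⟩
    · rw [hz, fimp_none] at hw'
      exact absurd hw' (by simp)
    · rw [hz] at hw'
      have := ih _ hz
      rcases hv : v a with _ | ⟨_ | ⟨a', l''⟩, b'⟩
      · rw [hv] at hw'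
        exact absurd hw' (by simp [fimp])
      · rw [hv] at hw'
        have h2 : (if l'.length < M then some (b' :: l', c) else none) = some w := hw'
        split_ifs at h2 with h3
        have h4 := Option.some.inj h2
        subst h4
        refine ⟨?_, fun _ => ?_⟩
        · simp only [List.length_cons]
          have := this.1
          simp only at this
          omega
        · simp only [List.length_cons]; omega
      · rw [hv] at hw'
        exact absurd hw' (by simp [fimp])

theorem good_F (M : ℕ) : Good M (F M) where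
  h1 x := fimp_none M x
  h2 x y z := fimp_fimp M x y z
  h3 v w hw := by
    obtain ⟨l, b⟩ := w
    rcases hz : evalO (F M) v (some (l, b)) with _ | w
    · rfl
    · obtain ⟨h1, h2⟩ := evalO_len M v b l w hz
      have hl : l ≠ [] := by rintro rfl; simp at hw
      have := h2 hl
      simp only at hw
      omega

theorem evalO_letters (M : ℕ) (w : List ℕ × ℕ) (h : w.1.length ≤ M) :
    evalO (F M) letters (some w) = some w := by
  obtain ⟨l, b⟩ := w
  induction l with
  | nil => rfl
  | cons a l ih =>
    show fimp M (letters a) (evalO (F M) letters (some (l, b))) = some (a :: l, b)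
    simp only [List.length_cons] at h
    rw [ih (by simp only; omega)]
    show (if l.length < M then some (a :: l, b) else none) = some (a :: l, b)
    rw [if_pos (by omega)]

theorem nf_wordTm (M : ℕ) (w : List ℕ × ℕ) (h : w.1.length ≤ M) : nf M (wordTm w) = some w := by
  unfold nf
  rw [eval_wordTm]
  exact evalO_letters M w h

/-- The letter of an element of `F M`. -/
def lett : W → ℕ
  | some ([], c) => c
  | _ => 0

theorem evalO_map (M : ℕ) (v : ℕ → W) (b : ℕ) (hb : v b = some ([], lett (v b))) (l : List ℕ)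
    (hl : ∀ c ∈ l, v c = some ([], lett (v c))) (h : l.length ≤ M) :
    evalO (F M) v (some (l, b)) = some (l.map (fun c => lett (v c)), lett (v b)) := by
  induction l with
  | nil => exact hb
  | cons a l ih =>
    show fimp M (v a) (evalO (F M) v (some (l, b))) = _
    simp only [List.length_cons] at h
    rw [ih (fun c hc => hl c (List.mem_cons_of_mem _ hc)) (by omega), hl a List.mem_cons_self]
    show (if (l.map (fun c => lett (v c))).length < M then
      some (lett (v a) :: l.map (fun c => lett (v c)), lett (v b)) else none) = _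
    rw [List.length_map, if_pos (by omega)]
    rfl

theorem evalO_none (M : ℕ) (v : ℕ → W) (b : ℕ) (l : List ℕ) (c : ℕ) (hc : c ∈ l)
    (h : v c ≠ some ([], lett (v c))) : evalO (F M) v (some (l, b)) = none := by
  induction l with
  | nil => simp at hc
  | cons a l ih =>
    show fimp M (v a) (evalO (F M) v (some (l, b))) = none
    rcases List.mem_cons.1 hc with rfl | hc
    · rcases hv : v c with _ | ⟨_ | ⟨a', l''⟩, b'⟩
      · rfl
      · exact absurd (by rw [hv]; rfl) h
      · rfl
    · rw [ih hc, fimp_none]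

variable {I : Type} {M : ℕ} (e : I ≃ Fin M)

/-- The word with `M + 1` letters, with `b` at place `i` and `a` everywhere else. -/
def u (i : I) (a b : ℕ) : List ℕ × ℕ := (List.ofFn (fun k : Fin M => if k = e i then b else a), a)

theorem u_len (i : I) (a b : ℕ) : (u e i a b).1.length = M := by simp [u]

theorem u_inj {i j : I} {a b c d : ℕ} (hab : a ≠ b) (hcd : c ≠ d) (h : u e i a b = u e j c d) :
    i = j ∧ a = c ∧ b = d := by
  have h2 : a = c := congrArg Prod.snd h
  have h1 : List.ofFn (fun k : Fin M => if k = e i then b else a) =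
      List.ofFn (fun k : Fin M => if k = e j then d else c) := congrArg Prod.fst h
  have h3 := List.ofFn_injective h1
  subst h2
  have h4 := congrFun h3 (e i)
  simp only [if_true] at h4
  by_cases hij : e i = e j
  · rw [if_pos hij] at h4
    exact ⟨e.injective hij, rfl, h4⟩
  · rw [if_neg hij] at h4
    exact absurd h4.symm hab

/-- The relation on normal forms given by `θ`. -/
def R (θ : Setoid I) (w w' : W) : Prop :=
  w = w' ∨ ∃ i j a b, a ≠ b ∧ θ i j ∧ w = some (u e i a b) ∧ w' = some (u e j a b)

theorem R_symm {θ : Setoid I} {w w' : W} (h : R e θ w w') : R e θ w' w := by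
  rcases h with h | ⟨i, j, a, b, hab, hij, h1, h2⟩
  · exact Or.inl h.symm
  · exact Or.inr ⟨j, i, a, b, hab, θ.symm' hij, h2, h1⟩

theorem R_trans {θ : Setoid I} {w w' w'' : W} (h : R e θ w w') (h' : R e θ w' w'') :
    R e θ w w'' := by
  rcases h with h | ⟨i, j, a, b, hab, hij, h1, h2⟩
  · rw [h]; exact h'
  · rcases h' with h' | ⟨k, l, c, d, hcd, hkl, h3, h4⟩
    · rw [← h']; exact Or.inr ⟨i, j, a, b, hab, hij, h1, h2⟩
    · obtain ⟨rfl, rfl, rfl⟩ := u_inj e hab hcd (Option.some.inj (h2.symm.trans h3))
      exact Or.inr ⟨i, l, a, b, hab, θ.trans' hij hkl, h1, h4⟩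

/-- The quotient of `F M`. -/
def RS (θ : Setoid I) : Setoid W where
  r := R e θ
  iseqv := ⟨fun _ => Or.inl rfl, R_symm e, R_trans e⟩

theorem fimp_u_left (i : I) (a b : ℕ) (z : W) : fimp M (some (u e i a b)) z = none := by
  have h : (u e i a b).1.length = M := u_len e i a b
  have hM : 0 < M := lt_of_le_of_lt (Nat.zero_le _) (e i).2
  rcases hu : u e i a b with ⟨_ | ⟨c, l⟩, d⟩
  · rw [hu] at h
    simp only [List.length_nil] at h
    omega
  · rfl

theorem fimp_u_right (i : I) (a b : ℕ) (z : W) : fimp M z (some (u e i a b)) = none := by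
  have h : (u e i a b).1.length = M := u_len e i a b
  rcases z with _ | ⟨_ | ⟨c, l⟩, d⟩
  · rfl
  · show (if (u e i a b).1.length < M then some (d :: (u e i a b).1, (u e i a b).2) else none) =
      none
    rw [if_neg (by omega)]
  · rfl

theorem R_congr {θ : Setoid I} {w1 w1' w2 w2' : W} (h1 : R e θ w1 w1') (h2 : R e θ w2 w2') :
    R e θ (fimp M w1 w2) (fimp M w1' w2') := by
  rcases h1 with rfl | ⟨i, j, a, b, hab, hij, rfl, rfl⟩
  · rcases h2 with rfl | ⟨i, j, a, b, hab, hij, rfl, rfl⟩
    · exact Or.inl rfl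
    · rw [fimp_u_right, fimp_u_right]; exact Or.inl rfl
  · rw [fimp_u_left, fimp_u_left]; exact Or.inl rfl

/-- The free algebra of the variety attached to `θ`. -/
abbrev FQ (θ : Setoid I) : Alg where
  carrier := Quotient (RS e θ)
  imp := Quotient.map₂ (fimp M) (fun _ _ h1 _ _ h2 => R_congr e h1 h2)
  zero := Quotient.mk (RS e θ) none

theorem eval_FQ (θ : Setoid I) (v : ℕ → W) (t : Tm) :
    t.eval (FQ e θ) (fun n => Quotient.mk (RS e θ) (v n)) =
      Quotient.mk (RS e θ) (t.eval (F M) v) := by
  induction t with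
  | var n => rfl
  | zero => rfl
  | imp s t hs ht =>
    show (FQ e θ).imp (s.eval (FQ e θ) _) (t.eval (FQ e θ) _) = _
    rw [hs, ht]
    rfl

/-- The identities attached to `θ`. -/
def E (θ : Setoid I) : Set (Tm × Tm) := {s | R e θ (nf M s.1) (nf M s.2)}

theorem mem_u_b (i : I) (a b : ℕ) : b ∈ (u e i a b).1 := by
  simp only [u, List.mem_ofFn]
  exact ⟨e i, by simp⟩

theorem mem_u_a {i j : I} (hij : i ≠ j) (a b : ℕ) : a ∈ (u e i a b).1 := by
  simp only [u, List.mem_ofFn]
  exact ⟨e j, by rw [if_neg]; exact fun h => hij (e.injective h).symm⟩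

theorem evalO_R {θ : Setoid I} (v : ℕ → W) {w w' : W} (h : R e θ w w') :
    R e θ (evalO (F M) v w) (evalO (F M) v w') := by
  rcases h with rfl | ⟨i, j, a, b, hab, hij, rfl, rfl⟩
  · exact Or.inl rfl
  · by_cases heq : i = j
    · subst heq; exact Or.inl rfl
    · by_cases ha : v a = some ([], lett (v a))
      · by_cases hb : v b = some ([], lett (v b))
        · have key : ∀ k : I, evalO (F M) v (some (u e k a b)) =
              some (u e k (lett (v a)) (lett (v b))) := by
            intro k
            have := evalO_map M v a ha (u e k a b).1 (fun c hc => by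
              simp only [u, List.mem_ofFn] at hc
              obtain ⟨y, hy⟩ := hc
              split_ifs at hy
              · rw [← hy]; exact hb
              · rw [← hy]; exact ha) (u_len e k a b).le
            refine this.trans ?_
            simp only [u, List.map_ofFn]
            congr 2
            congr 1
            funext y
            simp only [Function.comp]
            split_ifs <;> rfl
          rw [key, key]
          by_cases hc : lett (v a) = lett (v b)
          · left
            simp [u, hc]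
          · exact Or.inr ⟨i, j, _, _, hc, hij, rfl, rfl⟩
        · left
          have k1 := evalO_none M v a (u e i a b).1 b (mem_u_b e i a b) hb
          have k2 := evalO_none M v a (u e j a b).1 b (mem_u_b e j a b) hb
          exact k1.trans k2.symm
      · left
        have k1 := evalO_none M v a (u e i a b).1 a (mem_u_a e heq a b) ha
        have k2 := evalO_none M v a (u e j a b).1 a (mem_u_a e (Ne.symm heq) a b) ha
        exact k1.trans k2.symm

theorem FQ_mem (θ : Setoid I) : FQ e θ ∈ Mod (E e θ) := by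
  intro s hs v
  have hv : v = fun n => Quotient.mk (RS e θ) ((v n).out) := by
    funext n
    exact ((v n).out_eq).symm
  rw [hv, eval_FQ, eval_FQ]
  refine Quotient.sound ?_
  show R e θ _ _
  rw [sound (good_F M), sound (good_F M)]
  exact evalO_R e _ hs

theorem th_E (θ : Setoid I) : Th (Mod (E e θ)) = E e θ := by
  refine Set.Subset.antisymm ?_ (subset_th_mod _)
  intro s hs
  have h := hs (FQ e θ) (FQ_mem e θ) (fun n => Quotient.mk (RS e θ) (letters n))
  rw [eval_FQ, eval_FQ] at h
  exact Quotient.exact h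

theorem good_of_mem {θ : Setoid I} {A : Alg} (hA : A ∈ Mod (E e θ)) : Good M A where
  h1 x := hA (.imp (.var 0) .zero, .zero) 
    (Or.inl (by simp only [nf_imp, nf_zero, fimp_none])) (fun _ => x)
  h2 x y z := hA (.imp (.imp (.var 0) (.var 1)) (.var 2), .zero) 
    (Or.inl (by simp only [nf_imp, nf_zero, fimp_fimp]))
    (fun n => match n with | 0 => x | 1 => y | _ => z)
  h3 v w hw := by
    rw [← eval_wordTm]
    refine hA (wordTm w, .zero) (Or.inl ?_) v
    show nf M (wordTm w) = none
    unfold nf
    rw [eval_wordTm]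
    exact (good_F M).h3 letters w hw

theorem mod_E_subset (θ : Setoid I) : Mod (E e θ) ⊆ IZ := by
  refine mod_mono ?_
  rintro s (rfl | rfl)
  · left
    simp only [Tm.pr, nf_imp, nf_zero, fimp_none, fimp_fimp]
  · left
    simp only [Tm.pr, nf_imp, nf_zero, fimp_none]

/-- The subvariety attached to `θ`. -/
def VS (θ : Setoid I) : SubIZ := ⟨Mod (E e θ), ⟨_, rfl⟩, mod_E_subset e θ⟩

theorem E_inf (θ φ : Setoid I) : E e (θ ⊓ φ) = E e θ ∩ E e φ := by
  ext s
  constructor
  · rintro (h | ⟨i, j, a, b, hab, hij, h1, h2⟩)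
    · exact ⟨Or.inl h, Or.inl h⟩
    · exact ⟨Or.inr ⟨i, j, a, b, hab, hij.1, h1, h2⟩, Or.inr ⟨i, j, a, b, hab, hij.2, h1, h2⟩⟩
  · rintro ⟨h | ⟨i, j, a, b, hab, hij, h1, h2⟩, h'⟩
    · exact Or.inl h
    · rcases h' with h' | ⟨k, l, c, d, hcd, hkl, h3, h4⟩
      · exact Or.inl h'
      · obtain ⟨rfl, rfl, rfl⟩ := u_inj e hab hcd (Option.some.inj (h1.symm.trans h3))
        obtain ⟨rfl, -, -⟩ := u_inj e hab hcd (Option.some.inj (h2.symm.trans h4))
        exact Or.inr ⟨i, j, a, b, hab, ⟨hij, hkl⟩, h1, h2⟩

theorem E_mono {θ φ : Setoid I} (h : θ ≤ φ) : E e θ ⊆ E e φ := by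
  rintro s (h' | ⟨i, j, a, b, hab, hij, h1, h2⟩)
  · exact Or.inl h'
  · exact Or.inr ⟨i, j, a, b, hab, h hij, h1, h2⟩

theorem VS_inf (θ φ : Setoid I) : VS e (θ ⊓ φ) = VS e θ ⊔ VS e φ := by
  refine Subtype.ext ?_
  show Mod (E e (θ ⊓ φ)) = Mod (Th (Mod (E e θ) ∪ Mod (E e φ)))
  congr 1
  rw [E_inf, ← th_E e θ, ← th_E e φ]
  ext s
  constructor
  · rintro ⟨h1, h2⟩ A (hA | hA)
    · rw [th_E] at hA; exact h1 A hA
    · rw [th_E] at hA; exact h2 A hA
  · intro h
    rw [th_E, th_E] at h
    exact ⟨fun A hA => h A (Or.inl hA), fun A hA => h A (Or.inr hA)⟩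

theorem VS_sup (θ φ : Setoid I) : VS e (θ ⊔ φ) = VS e θ ⊓ VS e φ := by
  refine Subtype.ext ?_
  show Mod (E e (θ ⊔ φ)) = Mod (E e θ) ∩ Mod (E e φ)
  refine Set.Subset.antisymm (Set.subset_inter (mod_mono (E_mono e le_sup_left))
    (mod_mono (E_mono e le_sup_right))) ?_
  rintro A ⟨h1, h2⟩
  let T : Setoid I :=
    { r := fun i j => ∀ a b, a ≠ b → ∀ v, evalO A v (some (u e i a b)) =
        evalO A v (some (u e j a b))
      iseqv := ⟨fun i a b _ v => rfl, fun h a b hab v => (h a b hab v).symm,
        fun h h' a b hab v => (h a b hab v).trans (h' a b hab v)⟩ }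
  have key : ∀ χ : Setoid I, A ∈ Mod (E e χ) → χ ≤ T := by
    intro χ hA i j hij a b hab v
    have := hA (wordTm (u e i a b), wordTm (u e j a b)) (by
      right
      exact ⟨i, j, a, b, hab, hij, nf_wordTm M _ (u_len e i a b).le,
        nf_wordTm M _ (u_len e j a b).le⟩) v
    simp only at this
    rwa [eval_wordTm, eval_wordTm] at this
  have hT : θ ⊔ φ ≤ T := sup_le (key θ h1) (key φ h2)
  have hg : Good M A := good_of_mem e h1
  rintro s (h' | ⟨i, j, a, b, hab, hij, h3, h4⟩) v
  · rw [sound hg, sound hg, h']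
  · rw [sound hg, sound hg, h3, h4]
    exact hT hij a b hab v

theorem VS_injective : Function.Injective (VS e) := by
  intro θ φ h
  have hE : E e θ = E e φ := by
    have h' : Mod (E e θ) = Mod (E e φ) := congrArg Subtype.val h
    rw [← th_E e θ, ← th_E e φ, h']
  have key : ∀ (θ φ : Setoid I), E e θ ⊆ E e φ → θ ≤ φ := by
    intro θ φ hE i j hij
    have h1 : (wordTm (u e i 0 1), wordTm (u e j 0 1)) ∈ E e θ := Or.inr
      ⟨i, j, 0, 1, by norm_num, hij, nf_wordTm M _ (u_len e i 0 1).le,
        nf_wordTm M _ (u_len e j 0 1).le⟩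
    have h2 := hE h1
    change R e φ (nf M (wordTm (u e i 0 1))) (nf M (wordTm (u e j 0 1))) at h2
    rw [nf_wordTm M _ (u_len e i 0 1).le, nf_wordTm M _ (u_len e j 0 1).le] at h2
    rcases h2 with h2 | ⟨k, l, c, d, hcd, hkl, h3, h4⟩
    · obtain ⟨rfl, -, -⟩ := u_inj e (by norm_num) (by norm_num) (Option.some.inj h2)
      exact φ.refl' _
    · obtain ⟨rfl, rfl, rfl⟩ := u_inj e (by norm_num) hcd (Option.some.inj h3)
      obtain ⟨rfl, -, -⟩ := u_inj e (by norm_num) hcd (Option.some.inj h4)
      exact hkl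
  exact le_antisymm (key θ φ hE.subset) (key φ θ hE.symm.subset)

theorem eval_VS (θ : ℕ → Setoid I) (p : LTm) :
    p.eval (fun i => VS e (θ i)) = VS e (p.dual.eval θ) := by
  induction p with
  | var n => rfl
  | sup p q hp hq =>
    show p.eval _ ⊔ q.eval _ = VS e (p.dual.eval θ ⊓ q.dual.eval θ)
    rw [hp, hq, VS_inf]
  | inf p q hp hq =>
    show p.eval _ ⊓ q.eval _ = VS e (p.dual.eval θ ⊔ q.dual.eval θ)
    rw [hp, hq, VS_sup]

/-- Every lattice identity that holds in the lattice of subvarieties of the variety of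
implication zroupoids holds in all lattices. -/
theorem result (p q : LTm) (h : ∀ v : ℕ → SubIZ, p.eval v = q.eval v) :
    ∀ (L : Type u) [Lattice L] (v : ℕ → L), p.eval v = q.eval v := by
  intro L _ v
  by_contra hne
  have hd : p.dual.eval (fun i => OrderDual.toDual (v i)) ≠
      q.dual.eval (fun i => OrderDual.toDual (v i)) := by
    rw [eval_dual, eval_dual]
    exact fun hh => hne (OrderDual.toDual.injective hh)
  obtain ⟨B, hB, θ, hθ⟩ := exists_setoid _ _ _ hd
  obtain ⟨M, ⟨e⟩⟩ := Finite.exists_equiv_fin B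
  refine hθ (VS_injective e ?_)
  rw [← eval_VS, ← eval_VS]
  exact h _

end Pool.Agent.Results.MP_79490a_al.NoLatticeIdentity
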